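import Pool.Agent.H61.KU.TT

/-!
# The module KC of the board `ku_modules`

The projection `T × (ℂ ∖ 0) → T` is injective on `H_3` if `H_2 (T) = 0`.
-/

open Topology Set
open Pool.Agent.H59 Pool.Agent.H64.LB Pool.Agent.H61.KU

namespace Pool.Agent.H70.KU

/-- `ℂ ∖ 0` and `ℝ² ∖ 0` -/
noncomputable def cx : C(Cx, Sph 1) where
  toFun z := ⟨![z.1.re, z.1.im], by
    intro h
    apply z.2
    have h0 := congrFun h 0
    have h1 := congrFun h 1
    simp at h0 h1
    exact Complex.ext h0 h1⟩
  continuous_toFun := by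
    refine Continuous.subtype_mk (continuous_pi fun i => ?_) _
    fin_cases i
    · exact Complex.continuous_re.comp continuous_subtype_val
    · exact Complex.continuous_im.comp continuous_subtype_val

/-- the inverse of `cx` -/
noncomputable def cx' : C(Sph 1, Cx) where
  toFun x := ⟨⟨x.1 0, x.1 1⟩, by
    intro h
    apply x.2
    have h0 := congrArg Complex.re h
    have h1 := congrArg Complex.im h
    simp at h0 h1
    funext i
    fin_cases i
    · exact h0
    · exact h1⟩
  continuous_toFun := by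
    refine Continuous.subtype_mk ?_ _
    have h0 : Continuous fun x : Sph 1 => x.1 0 :=
      (continuous_apply 0).comp continuous_subtype_val
    have h1 : Continuous fun x : Sph 1 => x.1 1 :=
      (continuous_apply 1).comp continuous_subtype_val
    have h2 : (fun x : Sph 1 => (⟨x.1 0, x.1 1⟩ : ℂ)) =
        fun x => ((x.1 0 : ℝ) : ℂ) + ((x.1 1 : ℝ) : ℂ) * Complex.I := by
      funext x
      exact Complex.mk_eq_add_mul_I _ _
    rw [h2]
    exact (Complex.continuous_ofReal.comp h0).add
      ((Complex.continuous_ofReal.comp h1).mul continuous_const)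

theorem cx'_cx (z : Cx) : cx' (cx z) = z := rfl

theorem pf_kc (hS : T_SUSP) : T_KC := by
  intro T _ hT
  obtain ⟨S⟩ := hS (ZMod 2)
  have key : ∀ z : HH (ZMod 2) 3 (Sph 1 × T),
      HH.map (ZMod 2) 3 (ContinuousMap.snd : C(Sph 1 × T, T)) z = 0 → z = 0 := by
    intro z hz
    have h1 : (S.κ 1 2 T) ⟨z, hz⟩ = 0 := Subsingleton.elim _ _
    have h2 : (⟨z, hz⟩ : KK (ZMod 2) 1 (2 + 1) T) = 0 :=
      (S.κ 1 2 T).injective (by rw [h1, map_zero])
    exact congrArg Subtype.val h2
  rw [injective_iff_map_eq_zero]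
  intro z hz
  let g : C(T × Cx, Sph 1 × T) := (cx.comp ContinuousMap.snd).prodMk ContinuousMap.fst
  let g' : C(Sph 1 × T, T × Cx) := ContinuousMap.snd.prodMk (cx'.comp ContinuousMap.fst)
  have e1 : (ContinuousMap.snd : C(Sph 1 × T, T)).comp g = ContinuousMap.fst := rfl
  have e2 : g'.comp g = ContinuousMap.id (T × Cx) := rfl
  have h1 : HH.map (ZMod 2) 3 g z = 0 := by
    apply key
    rw [← HH.map_comp, e1, hz]
  have h2 := HH.map_comp (ZMod 2) 3 g g' z
  rw [e2, HH.map_id, h1, map_zero] at h2
  exact h2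

end Pool.Agent.H70.KU
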